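import Mathlib
import Pool.Agent.H29.BD1

set_option autoImplicit false

namespace Pool.Agent.Results.MP_e52733_co.Asymp

open Finset Filter Pool.Agent.H29.BD

/-- A Boolean realizer of size `d`: strict linear orders `L i` and a Boolean function `τ` of the
`d` comparisons that decides `x < y` for distinct `x, y`. -/
def HasRealizer (X : Type) [PartialOrder X] (d : ℕ) : Prop :=
  ∃ (L : Fin d → X → X → Prop) (τ : (Fin d → Prop) → Prop),
    (∀ i, IsStrictTotalOrder X (L i)) ∧ ∀ x y : X, x ≠ y → (x < y ↔ τ fun i => L i x y)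

/-- The Boolean dimension. -/
noncomputable def bdim (X : Type) [PartialOrder X] : ℕ := sInf {d | 1 ≤ d ∧ HasRealizer X d}

/-- The largest Boolean dimension of an antichain plus `n` points. -/
noncomputable def f (n : ℕ) : ℕ :=
  sSup {k | ∃ (X : Type) (_ : Fintype X) (_ : PartialOrder X) (B : Finset X),
    B.card = n ∧ IsAntichain (· ≤ ·) (B : Set X)ᶜ ∧ bdim X = k}

theorem of_keys {X J : Type} [PartialOrder X] [Fintype J] (κ : J → X → ℤ) (r : X → ℕ)
    (hr : Function.Injective r) (h : ∀ x y x' y', x ≠ y → x' ≠ y' →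
      (∀ j, κ j x < κ j y ∨ κ j x = κ j y ∧ r x < r y ↔
        κ j x' < κ j y' ∨ κ j x' = κ j y' ∧ r x' < r y') → x < y → x' < y') :
    HasRealizer X (Fintype.card J) := by
  set e := (Fintype.equivFin J).symm
  refine ⟨fun i x y => κ (e i) x < κ (e i) y ∨ κ (e i) x = κ (e i) y ∧ r x < r y,
    fun q => ∃ x y, x ≠ y ∧ x < y ∧
      q = fun i => κ (e i) x < κ (e i) y ∨ κ (e i) x = κ (e i) y ∧ r x < r y,
    fun i => ?_, fun x y hxy => ⟨fun k => ⟨x, y, hxy, k, rfl⟩, ?_⟩⟩
  · exact { trichotomous := fun a b h1 h2 => hr (by omega), irrefl := fun a => by omega,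
            trans := fun a b c h1 h2 => by omega }
  · rintro ⟨a, b, h1, h2, h3⟩
    refine h a b x y h1 hxy (fun j => ?_) h2
    have := congrFun h3 (e.symm j)
    simp only [Equiv.apply_symm_apply] at this
    rw [this]

theorem build {X ι : Type} [PartialOrder X] [Fintype X] [Fintype ι] (B : Finset X)
    (hA : IsAntichain (· ≤ ·) (B : Set X)ᶜ) (M : ι → X → Bool) (t : ι → X → ℕ)
    (hc : ∀ S : X → ℤˣ, ∃ v : ι → ℕ, ∀ b ∈ B, S b = ∏ i, σ (M i b) (t i b) (v i))
    (k : ℕ) (c : X → Fin k → Bool) (hi : ∀ x ∈ B, ∀ y ∈ B, c x = c y → x = y) :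
    HasRealizer X (Fintype.card ι + 2 * k * (k + 1) + 4) := by
  classical
  obtain ⟨r, hr, hm⟩ : ∃ r : X → ℕ, Function.Injective r ∧ ∀ x y, x < y → r x < r y := by
    have : Fintype (LinearExtension X) := ‹Fintype X›
    set e := (monoEquivOfFin (LinearExtension X) rfl).symm
    refine ⟨fun x => e (toLinearExtension x), fun x y h => e.injective (Fin.ext h),
      fun x y h => e.strictMono (lt_of_le_of_ne (toLinearExtension.monotone h.le) h.ne)⟩
  choose v hv using fun a : X => hc fun b => if a < b ∨ b < a then -1 else 1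
  set φ : Fin k × Option (Fin k) × Bool → X → Bool := fun j x =>
    xor (xor (c x j.1) (j.2.1.elim false (c x))) j.2.2 with hφ
  have := of_keys (J := ι ⊕ (Fin k × Option (Fin k) × Bool) ⊕ Fin 4) (Sum.elim
    (fun i x => if x ∈ B then 2 * t i x + 1 else 2 * v x i) (Sum.elim
    (fun j x => if x ∈ B then if φ j x then 2 else 0 else 1)
    ![fun _ => 0, fun x => if x ∈ B then 1 else 0, fun x => if x ∈ B then 0 else 1,
      fun x => if x ∈ B then -r x else 0])) r hr ?_
  · convert this using 1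
    simp; ring
  intro x y x' y' n n' h lt
  have h0 := h (.inr (.inr 0))
  have h1 := h (.inr (.inr 1))
  have h2 := h (.inr (.inr 2))
  have h3 := h (.inr (.inr 3))
  have h4 := fun i => h (.inl i)
  have h5 := fun j => h (.inr (.inl j))
  simp only [Sum.elim_inl, Sum.elim_inr, Matrix.cons_val, true_and] at h0 h1 h2 h3 h4 h5
  have r1 := hm _ _ lt
  have r2 : r x' < r y' := by omega
  suffices x' < y' ∨ y' < x' from this.resolve_right fun k => (hm _ _ k).not_gt r2
  clear h
  have key : ∀ a a' b, b ∈ B → (∀ i, t i b < v a i ↔ t i b < v a' i) →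
      (a < b ∨ b < a) → (a' < b ∨ b < a') := fun a a' b hb h k => by
    have e1 := hv a b hb
    have e2 := hv a' b hb
    simp only [σ, h] at e1
    simp only [σ, ← e1, k, if_true] at e2
    by_contra k'
    simp [k'] at e2
  by_cases a : x ∈ B <;> by_cases b : y ∈ B <;> by_cases a' : x' ∈ B <;> by_cases b' : y' ∈ B <;>
    simp only [a, b, a', b', if_true, if_false, true_and] at h1 h2 h3 h4 h5 <;> try omega
  · have s : ∀ i o, (φ (i, o, false) x = φ (i, o, false) y ∧
        φ (i, o, false) x' = φ (i, o, false) y') ∨ (φ (i, o, false) x = φ (i, o, false) x' ∧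
        φ (i, o, false) y = φ (i, o, false) y') := fun i o => by
      have e1 := h5 (i, o, false)
      have e2 := h5 (i, o, true)
      simp only [hφ, r1, r2, Bool.xor_false, Bool.xor_true] at e1 e2 ⊢
      generalize xor (c x i) (o.elim false (c x)) = p at *
      generalize xor (c y i) (o.elim false (c y)) = q at *
      generalize xor (c x' i) (o.elim false (c x')) = p' at *
      generalize xor (c y' i) (o.elim false (c y')) = q' at *
      revert e1 e2
      cases p <;> cases q <;> cases p' <;> cases q' <;> simp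
    obtain ⟨i0, e0⟩ := Function.ne_iff.mp fun e => n (hi x a y b e)
    have : ∀ i, c x i = c x' i ∧ c y i = c y' i := fun i => by
      have e1 := s i none
      have e2 := s i0 none
      have e3 := s i (some i0)
      simp only [hφ, Option.elim, Bool.xor_false] at e1 e2 e3
      revert e0 e1 e2 e3
      cases c x i <;> cases c y i <;> cases c x' i <;> cases c y' i <;> cases c x i0 <;>
        cases c y i0 <;> cases c x' i0 <;> cases c y' i0 <;> simp
    rw [← hi x a x' a' (funext fun i => (this i).1), ← hi y b y' b' (funext fun i => (this i).2)]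
    exact Or.inl lt
  · obtain rfl := hi x a x' a' (funext fun i => by
      have := h5 (i, none, false)
      simp only [hφ, Option.elim, Bool.xor_false] at this
      revert this
      cases c x i <;> cases c x' i <;> simp)
    exact (key y y' x a (fun i => by have := h4 i; omega) (Or.inr lt)).symm
  · obtain rfl := hi y b y' b' (funext fun i => by
      have := h5 (i, none, false)
      simp only [hφ, Option.elim, Bool.xor_false] at this
      revert this
      cases c y i <;> cases c y' i <;> simp)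
    exact key x x' y b (fun i => by have := h4 i; omega) (Or.inl lt)
  · exact (hA a b n lt.le).elim

theorem upper {X : Type} [PartialOrder X] [Fintype X] (B : Finset X)
    (hA : IsAntichain (· ≤ ·) (B : Set X)ᶜ) (T K g d e l : ℕ) (hN : 0 < B.card)
    (h1 : Real.log B.card * B.card ≤ T * (K + 1))
    (h2 : (2 * T + 1) * 2 ^ g ≤ B.card) (h3 : B.card ≤ g * d)
    (h4 : (B.card + 1) ^ K + 1 ≤ 2 ^ e) (h5 : B.card ≤ 2 ^ l) :
    HasRealizer X (d + (e + l) + 2 * l * (l + 1) + 4) := by
  classical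
  rw [← Fintype.card_coe B] at *
  obtain ⟨M, t, h⟩ := cover T K g d e l hN h1 h2 h3 h4 h5
  obtain ⟨c⟩ := Function.Embedding.nonempty_of_card_le (α := B) (β := Fin l → Bool) (by simpa using h5)
  have := build B hA (fun i x => if k : x ∈ B then M i ⟨x, k⟩ else false)
    (fun i x => if k : x ∈ B then t i ⟨x, k⟩ else 0) (fun S => by
      obtain ⟨v, hv⟩ := h fun b => S b
      exact ⟨v, fun b hb => by simpa [hb] using hv ⟨b, hb⟩⟩) l
    (fun x => if k : x ∈ B then c ⟨x, k⟩ else fun _ => false) fun x a y b e => by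
      simpa [a, b] using e
  simpa using this

def Y (n : ℕ) : Type := (Fin n → Bool) ⊕ Fin n

def ya {n : ℕ} (S : Fin n → Bool) : Y n := Sum.inl S

def yb {n : ℕ} (b : Fin n) : Y n := Sum.inr b

instance (n : ℕ) : Fintype (Y n) := inferInstanceAs (Fintype ((Fin n → Bool) ⊕ Fin n))

theorem ne_ab {n : ℕ} (S : Fin n → Bool) (b : Fin n) : ya S ≠ yb b := Sum.inl_ne_inr

instance (n : ℕ) : PartialOrder (Y n) where
  le x y := x = y ∨ ∃ S b, x = ya S ∧ y = yb b ∧ S b
  le_refl _ := Or.inl rfl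
  le_trans x y z := by
    rintro (rfl | ⟨S, b, rfl, rfl, h⟩) (rfl | ⟨S', b', h', rfl, h''⟩)
    exacts [Or.inl rfl, Or.inr ⟨S', b', h', rfl, h''⟩, Or.inr ⟨S, b, rfl, rfl, h⟩,
      (ne_ab _ _ h'.symm).elim]
  le_antisymm x y := by
    rintro (rfl | ⟨S, b, rfl, rfl, h⟩) (h | ⟨S', b', h', _, _⟩)
    exacts [rfl, rfl, h.symm, (ne_ab _ _ h'.symm).elim]

theorem lower (n d : ℕ) (h : HasRealizer (Y n) d) : 2 ^ n ≤ (n + 1) ^ d := by
  classical
  obtain ⟨L, τ, hL, h⟩ := h
  have lt : ∀ (S : Fin n → Bool) b, ya S < yb b ↔ S b := fun S b => by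
    rw [lt_iff_le_and_ne]
    refine ⟨fun k => ?_, fun k => ⟨Or.inr ⟨S, b, rfl, rfl, k⟩, ne_ab _ _⟩⟩
    rcases k.1 with e | ⟨S', b', e1, e2, e3⟩
    · exact absurd e k.2
    · cases e1; cases e2; exact e3
  have := Fintype.card_le_of_injective (fun (S : Fin n → Bool) (i : Fin d) =>
    (⟨#{b | L i (ya S) (yb b)}, Nat.lt_succ_of_le ((card_le_univ _).trans (by simp))⟩ :
      Fin (n + 1))) fun S S' e => by
    have s : ∀ i, univ.filter (fun b => L i (ya S) (yb b)) =
        univ.filter fun b => L i (ya S') (yb b) := fun i => by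
      have e' : #{b | L i (ya S) (yb b)} = #{b | L i (ya S') (yb b)} :=
        congrArg Fin.val (congrFun e i)
      by_cases k : L i (ya S) (ya S')
      · exact (eq_of_subset_of_card_le (monotone_filter_right _ fun b _ hb =>
          (hL i).trans _ _ _ k hb) e'.le).symm
      by_cases k' : L i (ya S') (ya S)
      · exact eq_of_subset_of_card_le (monotone_filter_right _ fun b _ hb =>
          (hL i).trans _ _ _ k' hb) e'.ge
      · rw [(hL i).trichotomous _ _ k k']
    funext b
    have e1 := h (ya S) (yb b) (ne_ab _ _)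
    have e2 := h (ya S') (yb b) (ne_ab _ _)
    have : (fun i => L i (ya S) (yb b)) = fun i => L i (ya S') (yb b) :=
      funext fun i => by simpa using congrArg (b ∈ ·) (s i)
    rw [lt, this, ← e2, lt] at e1
    exact Bool.eq_iff_iff.mpr e1
  simpa using this

theorem bounds (n D : ℕ) (hD : 1 ≤ D) (h : ∀ (X : Type) [Fintype X] [PartialOrder X] (B : Finset X),
    B.card = n → IsAntichain (· ≤ ·) (B : Set X)ᶜ → HasRealizer X D) :
    2 ^ n ≤ (n + 1) ^ f n ∧ f n ≤ D := by
  classical
  have ub : ∀ k ∈ {k | ∃ (X : Type) (_ : Fintype X) (_ : PartialOrder X) (B : Finset X),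
      B.card = n ∧ IsAntichain (· ≤ ·) (B : Set X)ᶜ ∧ bdim X = k}, k ≤ D := by
    rintro _ ⟨X, _, _, B, h1, h2, rfl⟩
    exact Nat.sInf_le ⟨hD, h X B h1 h2⟩
  have c1 : ((univ : Finset (Fin n)).map ⟨yb, Sum.inr_injective⟩).card = n := by simp
  have c2 : IsAntichain (· ≤ ·)
      (((univ : Finset (Fin n)).map ⟨yb, Sum.inr_injective⟩ : Finset (Y n)) : Set (Y n))ᶜ := by
    rintro x - y hy ne (e | ⟨S, b, rfl, rfl, -⟩)
    · exact ne e
    · exact hy (mem_map_of_mem _ (mem_univ b))
  refine ⟨(lower n _ (Nat.sInf_mem (s := {d | 1 ≤ d ∧ HasRealizer (Y n) d})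
    ⟨D, hD, h _ _ c1 c2⟩).2).trans (Nat.pow_le_pow_right (by omega)
    (le_csSup ⟨D, ub⟩ ⟨Y n, inferInstance, _, _, c1, c2, rfl⟩)), csSup_le' ub⟩

theorem main (m : ℕ) (hm : 2 ≤ m) : ∀ᶠ n in atTop, m ≤ Nat.log 2 n ∧ 2 ^ n ≤ (n + 1) ^ f n ∧
    m * f n * (Nat.log 2 n + 1) ≤ (m + 6) * n := by
  obtain ⟨J, hJ⟩ := eventually_atTop.mp ((tendsto_pow_const_div_const_pow_of_one_lt 4
    (one_lt_two (α := ℝ))).eventually_lt_const (u := 1 / (80 * (m : ℝ) ^ 4)) (by positivity))
  filter_upwards [eventually_ge_atTop (2 ^ (m * (J + 10)))] with n hn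
  have n0 : 0 < n := lt_of_lt_of_le (by positivity) hn
  have l0 : m * (J + 10) ≤ Nat.log 2 n := Nat.le_log_of_pow_le (by norm_num) hn
  have l1 := Nat.pow_log_le_self 2 n0.ne'
  have l2 := Nat.lt_pow_succ_log_self (b := 2) (by norm_num) n
  generalize Nat.log 2 n = l at *
  have l3 : 10 * m ≤ l := by nlinarith
  have j0 : J + 10 ≤ l / m := (Nat.le_div_iff_mul_le (by omega)).mpr (by linarith)
  have j1 := Nat.div_mul_le_self l m
  have j2 := Nat.lt_div_mul_add (a := l) (b := m) (by omega)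
  have j3 := hJ (l / m) (by omega)
  generalize l / m = j at *
  rw [div_lt_div_iff₀ (by positivity) (by positivity)] at j3
  have j4 : j ^ 4 * (80 * m ^ 4) < 1 * 2 ^ j := by exact_mod_cast j3
  have j5 : 5 * l ^ 4 ≤ 2 ^ j := by
    have : l ^ 4 ≤ (2 * (j * m)) ^ 4 := Nat.pow_le_pow_left (by nlinarith) 4
    nlinarith
  have j6 : 2 * j ≤ l := by nlinarith
  obtain ⟨g, rfl⟩ : ∃ g, l = g + j := ⟨l - j, by omega⟩
  have g0 : 0 < g := by omega
  set l := g + j with hl
  have p3 : 0 < l ^ 3 := by positivity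
  have k1 := Nat.div_mul_le_self n (l ^ 3)
  have k2 := Nat.lt_div_mul_add (a := n) p3
  have d1 := Nat.div_mul_le_self n g
  have d2 := Nat.lt_div_mul_add (a := n) g0
  have q1 : 2 * (l ^ 3 * (l + 1)) + 1 ≤ 5 * l ^ 4 := by nlinarith
  obtain ⟨b1, b2⟩ := bounds n _ (Nat.le_add_left 1 _) fun X _ _ B hB hA => upper B hA (l ^ 3 * (l + 1))
    (n / l ^ 3) g (n / g + 1) ((l + 1) * (n / l ^ 3) + 1) (l + 1) (by omega) (by
      rw [hB]
      have a1 : Real.log n ≤ l + 1 := by
        have : (n : ℝ) ≤ 2 ^ (l + 1) := by exact_mod_cast l2.le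
        refine (Real.log_le_log (by exact_mod_cast n0) this).trans ?_
        rw [Real.log_pow]
        push_cast
        exact mul_le_of_le_one_right (by positivity) (by linarith [Real.log_two_lt_d9])
      have a2 : (n : ℝ) ≤ l ^ 3 * ((n / l ^ 3 : ℕ) + 1) := by
        exact_mod_cast (by nlinarith : n ≤ l ^ 3 * (n / l ^ 3 + 1))
      calc _ ≤ (l + 1 : ℝ) * (l ^ 3 * ((n / l ^ 3 : ℕ) + 1)) := by gcongr
        _ = _ := by push_cast; ring)
    (by
      rw [hB]
      refine le_trans (Nat.mul_le_mul_right _ (q1.trans j5)) ?_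
      rw [← pow_add, add_comm]; exact l1)
    (by rw [hB]; nlinarith)
    (by
      rw [hB, pow_succ 2, pow_mul]
      have := Nat.pow_le_pow_left (show n + 1 ≤ 2 ^ (l + 1) from l2) (n / l ^ 3)
      have : 0 < (2 ^ (l + 1)) ^ (n / l ^ 3) := by positivity
      omega)
    (by rw [hB]; exact l2.le)
  refine ⟨by omega, b1, (Nat.mul_le_mul_right _ (Nat.mul_le_mul_left _ b2)).trans ?_⟩
  generalize n / l ^ 3 = K at *
  generalize n / g = d at *
  have t1 : m * (l + 1) * d ≤ (m + 4) * g * d := Nat.mul_le_mul_right _ (by nlinarith)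
  have t2 : m * (l + 1) ^ 2 * K ≤ l ^ 3 * K := Nat.mul_le_mul_right _ (by nlinarith)
  have t3 : m * ((l + 1) * (2 * (l + 1) * (l + 2) + l + 7)) ≤ n := by
    have a1 : (l + 1) * (2 * (l + 1) * (l + 2) + l + 7) ≤ 10 * l ^ 3 := by
      have : 20 ≤ l := by omega
      nlinarith [Nat.mul_le_mul this this, Nat.mul_le_mul_right (l * l) this]
    have a2 : 2 ^ j ≤ 2 ^ l := Nat.pow_le_pow_right (by norm_num) (by omega)
    nlinarith [Nat.mul_le_mul_left m a1, Nat.mul_le_mul_right (l ^ 3) l3]
  nlinarith [Nat.mul_le_mul_left (m + 4) d1]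

theorem result : Tendsto (fun n : ℕ => (f n : ℝ) * Real.logb 2 n / n) atTop (nhds 1) := by
  have key : ∀ m : ℕ, 2 ≤ m → ∀ᶠ n : ℕ in atTop, 1 - 1 / m ≤ (f n : ℝ) * Real.logb 2 n / n ∧
      (f n : ℝ) * Real.logb 2 n / n ≤ 1 + 6 / m := fun m hm => by
    filter_upwards [main m hm, eventually_gt_atTop 0] with n ⟨h1, h2, h3⟩ n0
    have N : (1 : ℝ) ≤ n := by exact_mod_cast n0
    have M : (2 : ℝ) ≤ m := by exact_mod_cast hm
    have a1 : (m : ℝ) ≤ Real.logb 2 n := by
      rw [Real.le_logb_iff_rpow_le (by norm_num) (by linarith), Real.rpow_natCast]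
      exact_mod_cast (Nat.pow_le_pow_right (by norm_num) h1).trans (Nat.pow_log_le_self 2 n0.ne')
    have a2 : Real.logb 2 n ≤ (Nat.log 2 n + 1 : ℕ) := by
      rw [Real.logb_le_iff_le_rpow (by norm_num) (by linarith), Real.rpow_natCast]
      exact_mod_cast (Nat.lt_pow_succ_log_self (b := 2) (by norm_num) n).le
    have a3 : (n : ℝ) ≤ f n * (Real.logb 2 n + 1) := by
      have b1 : (2 : ℝ) ^ n ≤ (n * 2) ^ f n :=
        le_trans (by exact_mod_cast h2) (pow_le_pow_left₀ (by positivity) (by linarith :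
          (n + 1 : ℝ) ≤ n * 2) _)
      have := Real.logb_le_logb_of_le one_lt_two (by positivity) b1
      rwa [Real.logb_pow, Real.logb_pow, Real.logb_mul (by linarith) (by norm_num),
        Real.logb_self_eq_one one_lt_two, mul_one] at this
    have a4 : (m : ℝ) * f n * (Nat.log 2 n + 1 : ℕ) ≤ (m + 6) * n := by exact_mod_cast h3
    have f0 : (0 : ℝ) ≤ f n := by positivity
    generalize Real.logb 2 n = L at *
    rw [le_div_iff₀ (by linarith), div_le_iff₀ (by linarith)]
    field_simp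
    constructor <;> nlinarith [mul_le_mul_of_nonneg_left a1 f0, mul_le_mul_of_nonneg_left a2 f0]
  refine tendsto_order.2 ⟨fun a ha => ?_, fun a ha => ?_⟩
  · obtain ⟨m, hm⟩ := exists_nat_gt (max 2 (1 / (1 - a)))
    rw [max_lt_iff, div_lt_iff₀ (by linarith)] at hm
    filter_upwards [key m (by exact_mod_cast hm.1.le)] with n h
    have : 1 / (m : ℝ) < 1 - a := by rw [div_lt_iff₀ (by linarith)]; linarith
    linarith [h.1]
  · obtain ⟨m, hm⟩ := exists_nat_gt (max 2 (6 / (a - 1)))
    rw [max_lt_iff, div_lt_iff₀ (by linarith)] at hm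
    filter_upwards [key m (by exact_mod_cast hm.1.le)] with n h
    have : 6 / (m : ℝ) < a - 1 := by rw [div_lt_iff₀ (by linarith)]; linarith
    linarith [h.2]

end Pool.Agent.Results.MP_e52733_co.Asymp
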